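import Pool.Agent.H.MP_e848aa_gt.Defs

set_option autoImplicit false

namespace Pool.Agent.H.MP_e848aa_gt

open Set Filter Topology

theorem cfin {ι : Type*} {T : Set ι} (h : T.Countable) : {s : Finset ι | ↑s ⊆ T}.Countable :=
  ((countable_setOf_finite_subset h).preimage Finset.coe_injective).mono fun s hs =>
    And.intro s.finite_toSet hs

theorem hull {ι : Type*} (h : Finset ι → Set ι) (hc : ∀ s, (h s).Countable) :
    ∃ H : Set ι → Set ι, (∀ T, T.Countable → (H T).Countable) ∧ (∀ T, T ⊆ H T) ∧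
      (∀ T (s : Finset ι), ↑s ⊆ H T → h s ⊆ H T) ∧ (∀ T T', T ⊆ T' → H T ⊆ H T') ∧
      ∀ T (r : Finset ι), ↑r ⊆ H T → ∃ s : Finset ι, ↑s ⊆ T ∧ ↑r ⊆ H s := by
  classical
  obtain ⟨H, hH⟩ : ∃ H : Set ι → Set ι, ∀ T p, p ∈ H T ↔
      ∀ N, T ⊆ N → (∀ s : Finset ι, ↑s ⊆ N → h s ⊆ N) → p ∈ N :=
    ⟨fun T => {p | ∀ N, T ⊆ N → (∀ s : Finset ι, ↑s ⊆ N → h s ⊆ N) → p ∈ N}, fun _ _ => Iff.rfl⟩
  have h1 : ∀ T, T ⊆ H T := fun T p hp => (hH T p).2 fun N h1 _ => h1 hp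
  have h2 : ∀ T (s : Finset ι), ↑s ⊆ H T → h s ⊆ H T := fun T s hs p hp =>
    (hH T p).2 fun N h3 h4 => h4 s (fun q hq => (hH T q).1 (hs hq) N h3 h4) hp
  have h3 : ∀ T T', T ⊆ T' → H T ⊆ H T' := fun T T' h3 p hp =>
    (hH T p).1 hp _ (h3.trans (h1 T')) (h2 T')
  refine ⟨H, fun T hT => ?_, h1, h2, h3, fun T r hr => ?_⟩
  · obtain ⟨L, l0, l1⟩ : ∃ L : ℕ → Set ι, L 0 = T ∧
        ∀ k, L (k + 1) = L k ∪ ⋃ s ∈ {s : Finset ι | ↑s ⊆ L k}, h s :=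
      ⟨fun k => Nat.rec T (fun _ A => A ∪ ⋃ s ∈ {s : Finset ι | ↑s ⊆ A}, h s) k, rfl, fun _ => rfl⟩
    have l2 : ∀ k, (L k).Countable := fun k => by
      induction k with
      | zero => rwa [l0]
      | succ k ih => rw [l1]; exact ih.union ((cfin ih).biUnion fun s _ => hc s)
    have l3 : Monotone L := monotone_nat_of_le_succ fun k => by rw [l1]; exact subset_union_left
    refine (countable_iUnion l2).mono fun p hp => (hH T p).1 hp _ (l0 ▸ subset_iUnion L 0)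
      fun s hs q hq => ?_
    obtain ⟨k, hk⟩ := l3.directed_le.exists_mem_subset_of_finset_subset_biUnion hs
    exact mem_iUnion.2 ⟨k + 1, by rw [l1]; exact Or.inr (mem_biUnion hk hq)⟩
  · have hd : Directed (· ⊆ ·) fun s : {s : Finset ι // ↑s ⊆ T} => H s.1 := fun a b =>
      ⟨⟨a.1 ∪ b.1, by rw [Finset.coe_union]; exact union_subset a.2 b.2⟩,
        h3 _ _ (Finset.coe_subset.2 Finset.subset_union_left),
        h3 _ _ (Finset.coe_subset.2 Finset.subset_union_right)⟩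
    have : Nonempty {s : Finset ι // ↑s ⊆ T} := ⟨⟨∅, by simp⟩⟩
    obtain ⟨s, hs⟩ := hd.exists_mem_subset_of_finset_subset_biUnion (s := r) fun p hp =>
      (hH T p).1 (hr hp) _ (fun q hq => mem_iUnion.2 ⟨⟨{q}, by simpa⟩, h1 _ (by simp)⟩)
        fun s hs => by
          obtain ⟨a, ha⟩ := hd.exists_mem_subset_of_finset_subset_biUnion hs
          exact (h2 _ s ha).trans (subset_iUnion (fun s : {s : Finset ι // ↑s ⊆ T} => H s.1) a)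
    exact ⟨s.1, s.2, hs⟩

theorem idx {X ι : Type*} [TopologicalSpace X] (hX : MetaL X) (O : ι → Set X)
    (ho : ∀ i, IsOpen (O i)) (hc : ∀ x, ∃ i, x ∈ O i) :
    ∃ V : ι → Set X, (∀ i, IsOpen (V i)) ∧ (∀ x, ∃ i, x ∈ V i) ∧
      (∀ x, {i | x ∈ V i}.Countable) ∧ ∀ i, V i ⊆ O i := by
  obtain ⟨𝒱, v1, v2, v3⟩ := hX (range O) (by rintro _ ⟨i, rfl⟩; exact ho i)
    (eq_univ_of_forall fun x => by obtain ⟨i, hi⟩ := hc x; exact ⟨_, ⟨i, rfl⟩, hi⟩)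
  have h1 : ∀ W : 𝒱, ∃ i, W.1 ⊆ O i := fun W => by
    obtain ⟨_, ⟨i, rfl⟩, h⟩ := (v1 W W.2).2
    exact ⟨i, h⟩
  choose j hj using h1
  refine ⟨fun i => ⋃ W ∈ {W : 𝒱 | j W = i}, W.1, fun i => isOpen_biUnion fun W _ => (v1 W W.2).1,
    fun x => ?_, fun x => (((v3 x).preimage Subtype.val_injective).image j).mono ?_,
    fun i => iUnion₂_subset fun W h => h ▸ hj W⟩
  · obtain ⟨W, w1, w2⟩ : x ∈ ⋃₀ 𝒱 := v2 ▸ mem_univ x
    exact ⟨j ⟨W, w1⟩, mem_biUnion (x := ⟨W, w1⟩) rfl w2⟩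
  · intro i hi
    obtain ⟨W, w1, w2⟩ := mem_iUnion₂.1 hi
    exact ⟨W, ⟨W.2, w2⟩, w1⟩

theorem ofidx {X ι : Type*} [TopologicalSpace X] {𝒰 : Set (Set X)} (W : ι → Set X)
    (h1 : ∀ i, IsOpen (W i) ∧ ∃ U ∈ 𝒰, W i ⊆ U) (h2 : ∀ x, ∃ i, x ∈ W i)
    (h3 : ∀ x, {i | x ∈ W i}.Countable) :
    ∃ 𝒱 : Set (Set X), (∀ V ∈ 𝒱, IsOpen V ∧ ∃ U ∈ 𝒰, V ⊆ U) ∧ ⋃₀ 𝒱 = univ ∧
      ∀ x, {V | V ∈ 𝒱 ∧ x ∈ V}.Countable :=
  ⟨range W, by rintro _ ⟨i, rfl⟩; exact h1 i, eq_univ_of_forall fun x => by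
    obtain ⟨i, hi⟩ := h2 x; exact ⟨_, ⟨i, rfl⟩, hi⟩, fun x => ((h3 x).image W).mono (by
      rintro _ ⟨⟨i, rfl⟩, h⟩; exact ⟨i, h, rfl⟩)⟩

theorem free {X ι : Type*} [TopologicalSpace X] {K : Set X} (hK : IsCompact K) (G : ι → Set X)
    (hG : ∀ p, IsOpen (G p)) (h1 : ∀ A : Finset K, ∃ p, (∀ a ∈ A, a.1 ∈ G p) ∧ ∃ y : K, y.1 ∉ G p) :
    ∃ (p : ℕ → ι) (x : ℕ → X), ∀ n, x n ∉ G (p n) ∧ ∀ m ≠ n, x n ∈ G (p m) := by
  classical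
  choose g g1 y g2 using h1
  obtain ⟨z, z1, z2⟩ := hK.ultrafilter_le_nhds
    ((Ultrafilter.of (atTop : Filter (Finset K))).map fun A => (y A).1)
    (le_principal_iff.2 (mem_map.2 (univ_mem' fun A => (y A).2)))
  have h2 : ∀ a : K, ∀ᶠ A in Ultrafilter.of (atTop : Filter (Finset K)), a.1 ∈ G (g A) := fun a =>
    Ultrafilter.of_le _ ((eventually_ge_atTop {a}).mono fun A hA =>
      g1 A a (hA (Finset.mem_singleton_self a)))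
  obtain ⟨A, a1, a2⟩ := exists_seq_of_forall_finset_exists (fun A => z ∈ G (g A))
    (fun A B => (y A).1 ∈ G (g B) ∧ (y B).1 ∈ G (g A)) fun s hs =>
      ((h2 ⟨z, z1⟩).and ((eventually_all_finset s).2 fun A hA =>
        (h2 (y A)).and (z2 ((hG _).mem_nhds (hs A hA))))).exists
  exact ⟨fun n => g (A n), fun n => y (A n), fun n => ⟨g2 _, fun m hm =>
    hm.lt_or_gt.elim (fun h => (a2 m n h).2) fun h => (a2 n m h).1⟩⟩

theorem pos {X Y ι : Type*} [TopologicalSpace X] [TopologicalSpace Y] {f : X → Y} (hf : Perf f)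
    (hX : MetaL X) (hι : ¬ Fr ι) (U : ι → Set Y) (hU : ∀ i, IsOpen (U i))
    (hc : ∀ y, ∃ i, y ∈ U i) : ∃ W : ι → Set Y, (∀ i, IsOpen (W i) ∧ W i ⊆ U i) ∧
      (∀ y, ∃ i, y ∈ W i) ∧ ∀ y, {i | y ∈ W i}.Countable := by
  classical
  obtain ⟨f1, f2, f3, f4⟩ := hf
  simp only [Fr, not_forall, not_exists, not_and, not_not] at hι
  obtain ⟨h, h1, h2⟩ := hι
  obtain ⟨H, H1, H2, H3, H4, H5⟩ := hull h h1
  obtain ⟨Q, hQ⟩ : ∃ Q : (Finset ι → Set X) → Prop, ∀ V, Q V ↔ (∀ i, IsOpen (V i)) ∧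
    (∀ x, ∃ i, x ∈ V i) ∧ ∀ x, {i | x ∈ V i}.Countable := ⟨_, fun _ => Iff.rfl⟩
  have s1 : ∀ V : {V // Q V}, ∃ V' : {V // Q V}, ∀ s, ∀ x ∈ V'.1 s, ∀ a, f a = f x →
      ∃ s' ⊆ s, a ∈ V.1 s' := by
    rintro ⟨V, hV⟩
    obtain ⟨v1, v2, -⟩ := (hQ V).1 hV
    obtain ⟨V', w1, w2, w3, w4⟩ := idx hX (fun s => f ⁻¹' kernImage f (⋃ s' ∈ Iic s, V s'))
      (fun s => (isClosedMap_iff_kernImage.1 f3 (isOpen_biUnion fun s' _ => v1 s')).preimage f1)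
      fun x => by
        obtain ⟨t, ht⟩ := (f4 (f x)).elim_finite_subcover V v1 fun a _ => mem_iUnion.2 (v2 a)
        refine ⟨t.sup id, fun a ha => ?_⟩
        obtain ⟨s, s1, s2⟩ := mem_iUnion₂.1 (ht ha)
        exact mem_biUnion (mem_Iic.2 (Finset.le_sup (f := id) s1)) s2
    refine ⟨⟨V', (hQ _).2 ⟨w1, w2, w3⟩⟩, fun s x hx a ha => ?_⟩
    obtain ⟨s', s1, s2⟩ := mem_iUnion₂.1 (w4 s hx ha)
    exact ⟨s', s1, s2⟩
  choose F hF using s1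
  obtain ⟨V0, w1, w2, w3, w4⟩ := idx hX (fun s : Finset ι => ⋃ p ∈ s, f ⁻¹' U p)
    (fun s => isOpen_biUnion fun p _ => (hU p).preimage f1) fun x => by
      obtain ⟨p, hp⟩ := hc (f x)
      exact ⟨{p}, mem_biUnion (Finset.mem_singleton_self p) hp⟩
  obtain ⟨V, v0, v1⟩ : ∃ V : ℕ → {V // Q V}, (V 0).1 = V0 ∧ ∀ n, V (n + 1) = F (V n) :=
    ⟨fun n => F^[n] ⟨V0, (hQ _).2 ⟨w1, w2, w3⟩⟩, rfl, fun n => Function.iterate_succ_apply' _ _ _⟩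
  obtain ⟨T, hT⟩ : ∃ T : X → Set ι, ∀ x, T x = ⋃ n, ⋃ s ∈ {s | x ∈ (V n).1 s}, ↑s :=
    ⟨_, fun _ => rfl⟩
  have t1 : ∀ x n s, x ∈ (V n).1 s → ∀ p ∈ s, p ∈ T x := fun x n s hs p hp =>
    hT x ▸ mem_iUnion.2 ⟨n, mem_biUnion (x := s) hs hp⟩
  have t2 : ∀ x, (T x).Countable := fun x => hT x ▸ countable_iUnion fun n =>
    (((hQ _).1 (V n).2).2.2 x).biUnion fun s _ => s.countable_toSet
  have t3 : ∀ p, IsOpen {x | p ∈ H (T x)} := fun p => isOpen_iff_mem_nhds.2 fun x hx => by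
    obtain ⟨s, s1, s2⟩ := H5 (T x) {p} (by simpa)
    refine ((eventually_all_finset s).2 fun q hq => ?_ :
      ∀ᶠ x' in 𝓝 x, ∀ q ∈ s, q ∈ T x').mono fun x' h => H4 _ _ h (s2 (by simp))
    have h3 := s1 hq
    simp only [hT, mem_iUnion] at h3
    obtain ⟨n, r, r1, r2⟩ := h3
    exact mem_of_superset ((((hQ _).1 (V n).2).1 r).mem_nhds r1) fun x' h => t1 x' n r h q r2
  have t4 : ∀ n, ∀ A : Finset X, A.card = n → ∀ x, (∀ a ∈ A, f a = f x) → ∀ s, x ∈ (V n).1 s →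
      ∃ p ∈ s, f x ∈ U p ∧ ∀ a ∈ A, p ∈ T a := fun n => by
    induction n with
    | zero =>
      intro A hA x _ s hs
      obtain ⟨p, p1, p2⟩ := mem_iUnion₂.1 (w4 s (v0 ▸ hs))
      exact ⟨p, p1, p2, by simp [Finset.card_eq_zero.1 hA]⟩
    | succ n ih =>
      intro A hA x h3 s hs
      obtain ⟨a, B, -, rfl, h4⟩ := Finset.card_eq_succ.1 hA
      obtain ⟨r, r1, r2⟩ := hF (V n) s x (v1 n ▸ hs) a (h3 a (Finset.mem_insert_self _ _))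
      have h5 := h3 a (Finset.mem_insert_self _ _)
      obtain ⟨p, p1, p2, p3⟩ := ih B h4 a (fun b hb => (h3 b (Finset.mem_insert_of_mem hb)).trans
        h5.symm) r r2
      exact ⟨p, r1 p1, h5 ▸ p2, fun b hb => (Finset.mem_insert.1 hb).elim
        (fun e => e ▸ t1 a n r r2 p p1) (p3 b)⟩
  refine ⟨fun p => U p ∩ kernImage f {x | p ∈ H (T x)}, fun p => ⟨(hU p).inter
    (isClosedMap_iff_kernImage.1 f3 (t3 p)), inter_subset_left⟩, fun y => ?_, fun y => ?_⟩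
  · by_contra h3
    obtain ⟨p, x, h4⟩ := free (f4 y) (fun p => {x | p ∈ H (T x)}) t3 fun A => by
      obtain ⟨x, rfl⟩ := f2 y
      obtain ⟨s, hs⟩ := ((hQ _).1 (V (A.image Subtype.val).card).2).2.1 x
      obtain ⟨p, -, p2, p3⟩ := t4 _ _ rfl x (fun a ha => by
        obtain ⟨b, -, rfl⟩ := Finset.mem_image.1 ha
        exact b.2) s hs
      refine ⟨p, fun a ha => H2 _ (p3 a (Finset.mem_image_of_mem _ ha)), ?_⟩
      by_contra h4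
      exact h3 ⟨p, p2, fun a ha => by_contra fun h5 => h4 ⟨⟨a, ha⟩, h5⟩⟩
    obtain ⟨_, ⟨n, rfl⟩, s, s1, s2⟩ := h2 (range p) (infinite_range_of_injective fun n m e =>
      by_contra fun h5 => (h4 m).1 (e ▸ (h4 m).2 n h5))
    refine (h4 n).1 (H3 _ s (fun q hq => ?_) s2)
    obtain ⟨⟨m, rfl⟩, h5⟩ := s1 hq
    exact (h4 n).2 m fun e => h5 (by rw [e]; rfl)
  · obtain ⟨x, rfl⟩ := f2 y
    exact (H1 _ (t2 x)).mono fun p hp => hp.2 rfl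

end Pool.Agent.H.MP_e848aa_gt
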