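import Pool.Agent.H.MP_e848aa_gt.A

set_option autoImplicit false

namespace Pool.Agent.H.MP_e848aa_gt

open Set Filter Topology

universe u

theorem setmap {ι : Type*} (S : Set ι) (v : ι → Finset ι) (hv : ∀ p ∈ S, p ∉ v p)
    (hB : ∀ B ⊆ S, (∀ p ∈ B, ∀ q ∈ B, p ∉ v q) → B.Countable) : S.Countable := by
  classical
  have h1 : ∀ r : Finset ι, ∃ B, Maximal (· ∈ {B | B ⊆ S \ r ∧ ∀ p ∈ B, ∀ q ∈ B, p ∉ v q}) B :=
    fun r => zorn_subset _ fun c hc hch => ⟨⋃₀ c, ⟨sUnion_subset fun a ha => (hc ha).1,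
      fun p ⟨a, ha, h⟩ q ⟨a', ha', h'⟩ => (hch.total ha ha').elim
        (fun h1 => (hc ha').2 p (h1 h) q h') fun h1 => (hc ha).2 p h q (h1 h')⟩,
      fun s hs => subset_sUnion_of_mem hs⟩
  choose B hB' using h1
  have h2 : ∀ r, (B r).Countable := fun r =>
    hB _ ((hB' r).1.1.trans sdiff_subset) (hB' r).1.2
  obtain ⟨H, H1, -, H3, -⟩ := hull (fun r => B r ∪ ⋃ q ∈ B r, v q) fun r =>
    (h2 r).union ((h2 r).biUnion fun q _ => (v q).countable_toSet)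
  refine (H1 ∅ countable_empty).mono fun p hp => by_contra fun h => ?_
  have h3 := H3 ∅ ((v p).filter (· ∈ H ∅)) fun q hq => (Finset.mem_filter.1 hq).2
  refine h (h3 (Or.inl ((hB' _).2 (y := insert p (B _)) ⟨insert_subset
    ⟨hp, fun h4 => h (Finset.mem_filter.1 h4).2⟩ (hB' _).1.1, ?_⟩ (subset_insert _ _)
    (mem_insert _ _))))
  rintro a (rfl | ha) b (rfl | hb)
  · exact hv _ hp
  · exact fun h4 => h (h3 (Or.inr (mem_biUnion hb h4)))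
  · exact fun h4 => ((hB' _).1.1 ha).2 (Finset.mem_filter.2 ⟨h4, h3 (Or.inl ha)⟩)
  · exact (hB' _).1.2 a ha b hb

@[reducible] def top {Z ι β : Type*} (M : Z → Prop) (φ : Finset ι → Z → β)
    (hφ : ∀ E E' x y, M x → E ⊆ E' → φ E' y = φ E' x → φ E y = φ E x) : TopologicalSpace Z where
  IsOpen O := ∀ x ∈ O, M x → ∃ E, ∀ y, φ E y = φ E x → y ∈ O
  isOpen_univ _ _ _ := ⟨∅, fun _ _ => trivial⟩
  isOpen_inter s t hs ht x hx h := by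
    classical
    obtain ⟨E, h1⟩ := hs x hx.1 h
    obtain ⟨E', h2⟩ := ht x hx.2 h
    exact ⟨E ∪ E', fun y hy => ⟨h1 y (hφ _ _ _ _ h Finset.subset_union_left hy),
      h2 y (hφ _ _ _ _ h Finset.subset_union_right hy)⟩⟩
  isOpen_sUnion s hs x hx h := by
    obtain ⟨t, ht, h1⟩ := hx
    obtain ⟨E, h2⟩ := hs t ht x h1 h
    exact ⟨E, fun y hy => ⟨t, ht, h2 y hy⟩⟩

theorem t35 {Z ι β : Type*} (M : Z → Prop) (φ : Finset ι → Z → β) (hφ)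
    (sep : ∀ x y, M x → (∀ E, φ E y = φ E x) → y = x) : @T35Space Z (top M φ hφ) := by
  letI := top M φ hφ
  have h1 : ∀ x, ∀ O : Set Z, IsOpen O → x ∈ O → ∃ B, IsClopen B ∧ x ∈ B ∧ B ⊆ O := fun x O hO hx => by
    by_cases h : M x
    · obtain ⟨E, hE⟩ := hO x hx h
      exact ⟨{y | φ E y = φ E x}, ⟨⟨fun y hy _ => ⟨E, fun z hz h => hy (hz.symm.trans h)⟩⟩,
        fun y hy _ => ⟨E, fun z hz => hz.trans hy⟩⟩, rfl, hE⟩
    · refine ⟨{x}, ⟨⟨fun y hy h1 => ?_⟩, fun y hy h1 => absurd (hy ▸ h1) h⟩, rfl,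
        singleton_subset_iff.2 hx⟩
      obtain ⟨E, hE⟩ := not_forall.1 fun h2 => hy (sep y x h1 h2).symm
      exact ⟨E, fun z hz h2 => hE (h2 ▸ hz)⟩
  have : T0Space Z := t0Space_iff_not_inseparable Z |>.2 fun x y hxy h => by
    by_cases h2 : M x
    · exact hxy (sep x y h2 fun E => (h.mem_open_iff (s := {y | φ E y = φ E x})
        fun y hy _ => ⟨E, fun z hz => hz.trans hy⟩).1 rfl).symm
    · exact hxy ((h.mem_open_iff (s := {x}) fun y hy h1 => absurd (hy ▸ h1) h2).1 rfl).symm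
  have : CompletelyRegularSpace Z := completelyRegularSpace_iff_isOpen.2 fun x K hK hx => by
    obtain ⟨B, b1, b2, b3⟩ := h1 x K hK hx
    refine ⟨(fun b : Bool => bif b then 0 else 1) ∘ B.boolIndicator,
      continuous_of_discreteTopology.comp ((continuous_boolIndicator_iff_isClopen B).2 b1),
      by simp [(B.mem_iff_boolIndicator x).1 b2], fun y hy => ?_⟩
    simp [(B.notMem_iff_boolIndicator y).1 fun h => hy (b3 h)]
  exact {}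

@[ext] structure Pt (κ : Type u) where
  C : Set (κ × ℕ)
  t : Set (κ × ℕ)
  sub : t ⊆ C
  cnt : t.Countable

variable {κ : Type u}

def M (x : Pt κ) : Prop :=
  (x.C.Infinite ∧ ∀ m, {a ∈ x.C | a.2 < m}.Finite) ∧ (x.C \ x.t).Subsingleton

def ψ (E : Finset (κ × ℕ)) (x : Pt κ) : Set (κ × ℕ) × Set (κ × ℕ) := (x.C ∩ E, x.t ∩ E)

def φ (E : Finset (κ × ℕ)) (x : Pt κ) : Set (κ × ℕ) × Prop :=
  (x.C ∩ E, ((x.C \ x.t) ∩ E).Subsingleton)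

theorem ag {α : Type*} {s s' E : Set α} : s ∩ E = s' ∩ E ↔ ∀ a ∈ E, (a ∈ s ↔ a ∈ s') := by
  simp only [Set.ext_iff, mem_inter_iff]
  exact forall_congr' fun a => by tauto

theorem ψ_iff {E : Finset (κ × ℕ)} {x y : Pt κ} :
    ψ E y = ψ E x ↔ ∀ a ∈ E, (a ∈ y.C ↔ a ∈ x.C) ∧ (a ∈ y.t ↔ a ∈ x.t) := by
  simp only [ψ, Prod.mk.injEq, ag, Finset.mem_coe, forall_and]

theorem φ_iff {E : Finset (κ × ℕ)} {x y : Pt κ} (h : M x) :
    φ E y = φ E x ↔ (∀ a ∈ E, (a ∈ y.C ↔ a ∈ x.C)) ∧ ((y.C \ y.t) ∩ E).Subsingleton := by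
  simp only [φ, Prod.mk.injEq, ag, Finset.mem_coe, eq_iff_iff,
    h.2.anti (inter_subset_left (t := E)), iff_true]

theorem hψ (E E' : Finset (κ × ℕ)) (x y : Pt κ) (_ : M x) (h : E ⊆ E') (h1 : ψ E' y = ψ E' x) :
    ψ E y = ψ E x := ψ_iff.2 fun a ha => ψ_iff.1 h1 a (h ha)

instance : TopologicalSpace (Pt κ) := top M ψ hψ

def Y (κ : Type u) : Type u := {y : Pt κ // ¬ M y ∨ y.t = y.C}

theorem hφ (E E' : Finset (κ × ℕ)) (x y : Y κ) (h : M x.1) (h1 : E ⊆ E')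
    (h2 : φ E' y.1 = φ E' x.1) : φ E y.1 = φ E x.1 :=
  (φ_iff h).2 ⟨fun a ha => ((φ_iff h).1 h2).1 a (h1 ha),
    ((φ_iff h).1 h2).2.anti (inter_subset_inter_right _ h1)⟩

instance : TopologicalSpace (Y κ) := top (fun y => M y.1) (fun E y => φ E y.1) hφ

instance : T35Space (Pt κ) := t35 _ _ hψ fun _ _ _ h =>
  Pt.ext (Set.ext fun a => (ψ_iff.1 (h {a}) a (Finset.mem_singleton_self a)).1)
    (Set.ext fun a => (ψ_iff.1 (h {a}) a (Finset.mem_singleton_self a)).2)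

theorem yext {x y : Y κ} (hx : M x.1) (hy : M y.1) (h : x.1.C = y.1.C) : x = y :=
  Subtype.ext (Pt.ext h (by rw [x.2.resolve_left (not_not.2 hx), y.2.resolve_left (not_not.2 hy), h]))

instance : T35Space (Y κ) := t35 _ _ hφ fun x y hx h => by
  classical
  have h1 : y.1.C = x.1.C := Set.ext fun a =>
    ((φ_iff hx).1 (h {a})).1 a (Finset.mem_singleton_self a)
  exact yext ⟨h1 ▸ hx.1, fun a ha b hb => ((φ_iff hx).1 (h {a, b})).2 ⟨ha, by simp⟩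
    ⟨hb, by simp⟩⟩ hx h1

open Classical in
noncomputable def f (x : Pt κ) : Y κ :=
  if h : M x then ⟨⟨x.C, x.C, Subset.rfl, (x.cnt.union h.2.countable).mono fun a ha => by
    by_cases h1 : a ∈ x.t
    exacts [Or.inl h1, Or.inr ⟨ha, h1⟩]⟩, Or.inr rfl⟩ else ⟨x, Or.inl h⟩

theorem fN {x : Pt κ} (h : ¬ M x) : (f x).1 = x := by rw [f, dif_neg h]

theorem fC (x : Pt κ) : (f x).1.C = x.C := by
  unfold f; split_ifs <;> rfl

theorem fM (x : Pt κ) : M (f x).1 ↔ M x := by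
  by_cases h : M x
  · refine iff_of_true ⟨fC x ▸ h.1, ?_⟩ h
    rw [f, dif_pos h]; simp
  · rw [fN h]

theorem fφ (E : Finset (κ × ℕ)) (x : Pt κ) : φ E (f x).1 = φ E x := by
  by_cases h : M x
  · exact (φ_iff h).2 ⟨fun a _ => by rw [fC], ((fM x).2 h).2.anti inter_subset_left⟩
  · rw [fN h]

theorem fy (y : Y κ) : f y.1 = y := by
  by_cases h : M y.1
  · exact yext ((fM _).2 h) h (fC _)
  · exact Subtype.ext (fN h)

def rm (x : Pt κ) (p : κ × ℕ) : Pt κ :=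
  ⟨x.C, x.t \ {p}, sdiff_subset.trans x.sub, x.cnt.mono sdiff_subset⟩

theorem key {y : Y κ} (hy : M y.1) {E : Finset (κ × ℕ)} {x : Pt κ} (h : φ E x = φ E y.1)
    {E0 : Finset (κ × ℕ)} (h0 : E0 ⊆ E) : ψ E0 x = ψ E0 y.1 ∨
      ∃ p ∈ E0, p ∈ y.1.C ∧ ψ E x = ψ E (rm y.1 p) := by
  obtain ⟨h1, h2⟩ := (φ_iff hy).1 h
  have e := y.2.resolve_left (not_not.2 hy)
  by_cases h3 : ∃ p ∈ E0, p ∈ x.C ∧ p ∉ x.t
  · obtain ⟨p, p1, p2, p3⟩ := h3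
    refine Or.inr ⟨p, p1, (h1 p (h0 p1)).1 p2, ψ_iff.2 fun a ha => ⟨h1 a ha, ?_⟩⟩
    simp only [rm, e, Set.mem_sdiff, mem_singleton_iff]
    exact ⟨fun h4 => ⟨(h1 a ha).1 (x.sub h4), fun h5 => p3 (h5 ▸ h4)⟩, fun h4 =>
      by_contra fun h5 => h4.2 (h2 ⟨⟨(h1 a ha).2 h4.1, h5⟩, ha⟩ ⟨⟨p2, p3⟩, h0 p1⟩)⟩
  · refine Or.inl (ψ_iff.2 fun a ha => ⟨h1 a (h0 ha), ?_⟩)
    rw [e, ← h1 a (h0 ha)]
    exact ⟨fun h4 => x.sub h4, fun h4 => by_contra fun h5 => h3 ⟨a, ha, h4, h5⟩⟩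

theorem rmM {y : Y κ} (hy : M y.1) (p : κ × ℕ) : M (rm y.1 p) :=
  ⟨hy.1, (subsingleton_singleton (a := p)).anti fun a ha => by_contra fun h =>
    ha.2 ⟨y.2.resolve_left (not_not.2 hy) ▸ ha.1, h⟩⟩

theorem perf : Perf (f : Pt κ → Y κ) := by
  classical
  refine ⟨continuous_def.2 fun O hO x hx h => ?_, fun y => ⟨y.1, fy y⟩,
    fun F hF => ⟨fun y hy h => ?_⟩, fun y => ?_⟩
  · obtain ⟨E, hE⟩ := hO _ hx ((fM x).2 h)
    refine ⟨E, fun x' h1 => hE _ ?_⟩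
    have h2 := ψ_iff.1 h1
    simp only [fφ]
    exact (φ_iff h).2 ⟨fun a ha => (h2 a ha).1, h.2.anti fun a ha =>
      ⟨(h2 a ha.2).1.1 ha.1.1, fun h3 => ha.1.2 ((h2 a ha.2).2.2 h3)⟩⟩
  · obtain ⟨E0, h0⟩ := hF.isOpen_compl y.1 (fun h1 => hy ⟨_, h1, fy y⟩) h
    choose E hE using fun p => hF.isOpen_compl (rm y.1 p)
      (fun h1 => hy ⟨_, h1, yext ((fM _).2 (rmM h p)) h (fC _)⟩) (rmM h p)
    refine ⟨E0 ∪ E0.biUnion E, ?_⟩
    rintro _ h1 ⟨x, h2, rfl⟩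
    rcases key h ((fφ _ x).symm.trans h1) Finset.subset_union_left with h3 | ⟨p, p1, -, p3⟩
    · exact h0 x h3 h2
    · exact hE p x (ψ_iff.2 fun a ha => ψ_iff.1 p3 a (Finset.mem_union_right _
        (Finset.mem_biUnion.2 ⟨p, p1, ha⟩))) h2
  · by_cases h : M y.1
    · refine isCompact_of_finite_subcover fun U hU hc => ?_
      obtain ⟨i, hi⟩ := mem_iUnion.1 (hc (fy y))
      obtain ⟨E, hE⟩ := hU i _ hi h
      have h1 : (f ⁻¹' {y} \ U i).Finite := (E.finite_toSet.image (rm y.1)).subset fun x hx => by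
        have h2 : f x = y := hx.1
        have h3 : M x := (fM x).1 (h2 ▸ h)
        have h4 : x.C = y.1.C := h2 ▸ (fC x).symm
        have e := y.2.resolve_left (not_not.2 h)
        rcases key h (E := E) (x := x) (h2 ▸ (fφ _ x).symm) Finset.Subset.rfl with
          h5 | ⟨p, p1, p2, p3⟩
        · exact absurd (hE x h5) hx.2
        · have h6 : p ∉ x.t := fun h6 => ((ψ_iff.1 p3 p p1).2.1 h6).2 rfl
          refine ⟨p, p1, Pt.ext h4.symm (Set.ext fun a => ?_)⟩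
          simp only [rm, e, ← h4, Set.mem_sdiff, mem_singleton_iff]
          exact ⟨fun h7 => by_contra fun h8 => h7.2 (h3.2 ⟨h7.1, h8⟩ ⟨h4 ▸ p2, h6⟩),
            fun h7 => ⟨x.sub h7, fun h8 => h6 (h8 ▸ h7)⟩⟩
      obtain ⟨t, ht⟩ := h1.isCompact.elim_finite_subcover U hU (sdiff_subset.trans hc)
      refine ⟨insert i t, fun x hx => ?_⟩
      rw [Finset.set_biUnion_insert]
      exact (em (x ∈ U i)).imp id fun h2 => ht ⟨hx, h2⟩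
    · refine ((finite_singleton y.1).subset fun x hx => ?_).isCompact
      have h2 : f x = y := hx
      exact (fN fun h3 => h (h2 ▸ (fM x).2 h3)).symm.trans (congrArg _ h2)

theorem metaX : MetaL (Pt κ) := by
  classical
  intro 𝒰 hU hc
  have h1 : ∀ x : Pt κ, ∃ U ∈ 𝒰, x ∈ U ∧ ∃ E, M x → ∀ y, ψ E y = ψ E x → y ∈ U := fun x => by
    obtain ⟨U, u1, u2⟩ : x ∈ ⋃₀ 𝒰 := hc ▸ mem_univ x
    by_cases h : M x
    · obtain ⟨E, hE⟩ := hU U u1 x u2 h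
      exact ⟨U, u1, u2, E, fun _ => hE⟩
    · exact ⟨U, u1, u2, ∅, fun h' => absurd h' h⟩
  choose U u1 u2 E u3 using h1
  obtain ⟨S, hS⟩ : ∃ S : Finset (κ × ℕ) → ℕ → Set (Pt κ), ∀ F m x, x ∈ S F m ↔
      M x ∧ ∀ a ∈ E x, a.2 < m ∧ (a ∈ x.C ↔ a ∈ F) := ⟨fun F m => {x | _}, fun _ _ _ => Iff.rfl⟩
  have h2 : ∀ F m, ∃ J ⊆ S F m, J.Countable ∧ ∀ x ∈ S F m, ∃ y ∈ J, ψ (E y) y = ψ (E x) x := by
    intro F m
    obtain ⟨J, j1, j2⟩ := exists_subset_bijOn (S F m) fun x => ψ (E x) x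
    refine ⟨J, j1, countable_of_injective_of_countable_image j2.injOn
      ((F.finite_toSet.finite_subsets.prod F.finite_toSet.finite_subsets).subset ?_).countable,
      fun x hx => j2.surjOn ⟨x, hx, rfl⟩⟩
    rintro _ ⟨x, hx, rfl⟩
    have h3 := ((hS _ _ _).1 (j1 hx)).2
    exact ⟨fun a ha => (h3 a ha.2).2.1 ha.1, fun a ha => (h3 a ha.2).2.1 (x.sub ha.1)⟩
  choose J j1 j2 j3 using h2
  obtain ⟨H, H1, H2, H3, H4, H5⟩ := hull (fun F => ⋃ m, ⋃ x ∈ J F m, E x) fun F =>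
    countable_iUnion fun m => (j2 F m).biUnion fun x _ => (E x).countable_toSet
  refine ofidx (fun i : Finset (κ × ℕ) × Pt κ => {y | (¬ M y ∧ i = (∅, y)) ∨
    (↑i.1 ⊆ y.t ∧ (∃ F : Finset (κ × ℕ), ↑F ⊆ H i.1 ∧ ∃ m, i.2 ∈ J F m) ∧
      ψ (E i.2) y = ψ (E i.2) i.2)}) (fun i => ⟨fun y hy h => ?_, U i.2, u1 _, ?_⟩)
    (fun x => ?_) fun y => ?_
  · obtain ⟨h3, h4, h5⟩ := hy.resolve_left fun h3 => h3.1 h
    refine ⟨i.1 ∪ E i.2, fun z hz => Or.inr ⟨fun a ha => (ψ_iff.1 hz a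
      (Finset.mem_union_left _ ha)).2.2 (h3 ha), h4, Eq.trans (ψ_iff.2 fun a ha =>
        ψ_iff.1 hz a (Finset.mem_union_right _ ha)) h5⟩⟩
  · rintro y (⟨-, rfl⟩ | ⟨-, ⟨F, -, m, h3⟩, h4⟩)
    · exact u2 y
    · exact u3 _ ((hS _ _ _).1 (j1 F m h3)).1 y h4
  · by_cases h : M x
    swap
    · exact ⟨(∅, x), Or.inl ⟨h, rfl⟩⟩
    obtain ⟨x0, e1, e2⟩ : ∃ x0 : Pt κ, x0.C = x.C ∩ H x.t ∧ x0.t = x.t :=
      ⟨⟨_, x.t, subset_inter x.sub (H2 _), x.cnt⟩, rfl, rfl⟩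
    have h3 : M x0 := by
      refine ⟨⟨fun h3 => h.1.1 ((h3.union h.2.finite).subset fun a ha => ?_), fun m =>
        (h.1.2 m).subset fun a ha => ⟨(e1 ▸ ha.1 : a ∈ x.C ∩ H x.t).1, ha.2⟩⟩, h.2.anti ?_⟩
      · by_cases h4 : a ∈ x.t
        exacts [Or.inl (x0.sub (e2 ▸ h4)), Or.inr ⟨ha, h4⟩]
      · rw [e1, e2]; exact sdiff_subset_sdiff_left inter_subset_left
    obtain ⟨m, hm⟩ := ((E x0).image Prod.snd).exists_nat_subset_range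
    obtain ⟨F, hF⟩ : ∃ F : Finset (κ × ℕ), ∀ a, a ∈ F ↔ a ∈ x0.C ∧ a.2 < m :=
      ⟨(h3.1.2 m).toFinset, fun a => by simp⟩
    obtain ⟨y, y1, y2⟩ := j3 F m x0 ((hS _ _ _).2 ⟨h3, fun a ha => by
      have := Finset.mem_range.1 (hm (Finset.mem_image_of_mem _ ha))
      simp [hF, this]⟩)
    obtain ⟨s, s1, s2⟩ := H5 x.t F fun a ha => (e1 ▸ ((hF a).1 ha).1 : a ∈ x.C ∩ H x.t).2
    refine ⟨(s, y), Or.inr ⟨s1, ⟨F, s2, m, y1⟩, ψ_iff.2 fun a ha => ?_⟩⟩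
    have h4 := ((hS _ _ _).1 (j1 F m y1)).2 a ha
    have h5 : a ∈ H x.t := H4 _ _ s1 (H3 _ F s2 (mem_iUnion.2 ⟨m, mem_biUnion y1 ha⟩))
    have h6 : a ∈ x.C ↔ a ∈ y.C := by simp [h4.2, hF, e1, h4.1, h5]
    simp only [ψ, Prod.mk.injEq, Set.ext_iff, mem_inter_iff, e2] at y2
    exact ⟨h6, fun h7 => ((y2.2 a).2 ⟨h7, ((y2.1 a).1 ⟨h6.1 (x.sub h7), ha⟩).2⟩).1,
      fun h7 => ((y2.2 a).1 ⟨h7, ha⟩).1⟩
  · refine (((cfin y.cnt).biUnion fun s _ => (countable_singleton s).prod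
      ((cfin (H1 _ s.countable_toSet)).biUnion fun F _ => countable_iUnion (j2 F))).insert
        (∅, y)).mono ?_
    rintro i (⟨-, rfl⟩ | ⟨h3, ⟨F, h4, h5⟩, -⟩)
    · exact mem_insert _ _
    · exact Or.inr (mem_biUnion h3 ⟨rfl, mem_biUnion h4 (mem_iUnion.2 h5)⟩)

theorem notY (hκ : Fr κ) : ¬ MetaL (Y κ) := by
  classical
  intro hY
  obtain ⟨c0, c1, -⟩ := hκ (fun _ => ∅) fun _ => countable_empty
  obtain ⟨W, w1, w2, w3, w4⟩ := idx hY (fun p : κ × ℕ => {y | M y.1 → p ∈ y.1.C})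
    (fun p y hy h => ⟨{p}, fun z hz _ => (((φ_iff h).1 hz).1 p (by simp)).2 (hy h)⟩) fun y => by
      by_cases h : M y.1
      · obtain ⟨p, hp⟩ := h.1.1.nonempty
        exact ⟨p, fun _ => hp⟩
      · exact ⟨(c1.nonempty.some, 0), fun h' => absurd h' h⟩
  choose p hp using w2
  choose E hE using fun y : {y : Y κ // M y.1} => w1 _ y.1 (hp y.1) y.2
  obtain ⟨h, hh⟩ : ∃ h : Finset (κ × ℕ) → Set (κ × ℕ), ∀ s a, a ∈ h s ↔
      ∃ y : {y : Y κ // M y.1}, p y.1 = a ∧ ↑s = (y.1.1.C ∩ E y) \ {a} :=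
    ⟨fun s => {a | _}, fun _ _ => Iff.rfl⟩
  have h1 : ∀ s, (h s).Countable := fun s => by
    rcases (h s).eq_empty_or_nonempty with h1 | ⟨a0, h1⟩
    · rw [h1]; exact countable_empty
    have : Nonempty {y : Y κ // M y.1} := ⟨((hh s a0).1 h1).choose⟩
    choose! g g1 g2 using fun a => (hh s a).1
    have g3 : ∀ a ∈ h s, a ∈ (g a).1.1.C := fun a ha => by
      have := w4 _ (hp (g a).1) (g a).2
      rwa [g1 a ha] at this
    refine setmap _ (fun a => (E (g a)).filter (· ∉ (g a).1.1.C))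
      (fun a ha h2 => (Finset.mem_filter.1 h2).2 (g3 a ha)) fun B b1 b2 => ?_
    refine (w3 (f ⟨↑s ∪ B, s, subset_union_left, s.countable_toSet⟩)).mono fun a ha => ?_
    have h2 : ∀ b ∈ B, b ∈ E (g a) → b ∈ (g a).1.1.C := fun b hb h2 =>
      by_contra fun h3 => b2 b hb a ha (Finset.mem_filter.2 ⟨h2, h3⟩)
    have h3 := g2 a (b1 ha)
    rw [mem_ofPred_eq, ← g1 a (b1 ha)]
    refine hE _ _ ((fφ _ _).trans ((φ_iff (g a).2).2 ⟨fun b hb => ⟨?_, fun h4 => ?_⟩,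
      (subsingleton_singleton (a := a)).anti fun b hb => by_contra fun h4 => ?_⟩))
    · rintro (h4 | h4)
      exacts [(h3.subset h4).1.1, h2 b h4 hb]
    · by_cases h5 : b = a
      exacts [Or.inr (h5 ▸ ha), Or.inl (h3 ▸ ⟨⟨h4, hb⟩, h5⟩)]
    · exact hb.1.2 (show b ∈ (s : Set _) from h3 ▸ ⟨⟨h2 b (hb.1.1.resolve_left hb.1.2) hb.2,
        hb.2⟩, h4⟩)
  obtain ⟨c, c2, c3⟩ := hκ (fun s => Prod.fst '' ⋃ r ∈ {r : Finset (κ × ℕ) |
    ↑r ⊆ (s : Set κ) ×ˢ (univ : Set ℕ)}, h r) fun s =>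
      ((cfin (s.countable_toSet.prod countable_univ)).biUnion fun r _ => h1 r).image _
  obtain ⟨e, e1, e2⟩ : ∃ e : ℕ → κ, Function.Injective e ∧ ∀ n, e n ∈ c :=
    ⟨fun n => c2.natEmbedding c n, Subtype.val_injective.comp (c2.natEmbedding c).injective,
      fun n => (c2.natEmbedding c n).2⟩
  obtain ⟨y, hy⟩ : ∃ y : {y : Y κ // M y.1}, y.1.1.C = range fun n => (e n, n) :=
    ⟨⟨⟨⟨_, _, Subset.rfl, countable_range fun n => (e n, n)⟩, Or.inr rfl⟩,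
      ⟨infinite_range_of_injective fun a b h => congrArg Prod.snd h, fun m =>
        ((finite_lt_nat m).image fun n => (e n, n)).subset (by
          rintro _ ⟨⟨n, rfl⟩, h⟩; exact ⟨n, h, rfl⟩)⟩, by simp⟩, rfl⟩
  obtain ⟨n, hn⟩ : p y.1 ∈ range fun n => (e n, n) := hy ▸ w4 _ (hp y.1) y.2
  obtain ⟨r, hr⟩ : ∃ r : Finset (κ × ℕ), ↑r = (y.1.1.C ∩ E y) \ {p y.1} :=
    ⟨(((E y).finite_toSet.inter_of_right _).sdiff).toFinset, Finite.coe_toFinset _⟩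
  refine c3 (e n) (e2 n) (r.image Prod.fst) (fun a ha => ?_) ⟨p y.1, mem_biUnion (x := r)
    (fun a ha => ⟨Finset.mem_coe.2 (Finset.mem_image_of_mem _ ha), trivial⟩)
    ((hh _ _).2 ⟨y, rfl, hr⟩), by rw [← hn]⟩
  obtain ⟨b, b1, rfl⟩ := Finset.mem_image.1 ha
  have b2 : b ∈ (y.1.1.C ∩ E y) \ {p y.1} := hr ▸ b1
  obtain ⟨m, rfl⟩ : b ∈ range fun n => (e n, n) := hy ▸ b2.1.1
  exact ⟨e2 m, fun h2 => b2.2 (by rw [← hn, e1 h2]; rfl)⟩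

end Pool.Agent.H.MP_e848aa_gt
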