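import Pool.Agent.H.MP_e848aa_gt.A

set_option autoImplicit false

namespace Pool.Agent.H.MP_e848aa_gt

open Set Filter Cardinal

theorem big {κ : Type*} (𝒰 : Ultrafilter κ) [CountableInterFilter (𝒰 : Filter κ)]
    (h : κ → Set κ) (hc : ∀ q, (h q).Countable) : {p | ∀ᶠ q in 𝒰, p ∈ h q}.Countable := by
  by_contra h1
  rw [← le_aleph0_iff_set_countable, not_le, ← Order.succ_le_iff, succ_aleph0,
    le_mk_iff_exists_subset] at h1
  obtain ⟨I, i1, i2⟩ := h1
  obtain ⟨j⟩ : Nonempty (I ↪ ULift (ℕ → Bool)) := by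
    rw [← Cardinal.le_def, i2]; simpa using aleph_one_le_continuum
  have h2 : ∀ q, ∃ p : I, p.1 ∉ h q := fun q => by
    by_contra h2
    have h3 : I.Countable := (hc q).mono fun p hp => by_contra fun h3 => h2 ⟨⟨p, hp⟩, h3⟩
    rw [← le_aleph0_iff_set_countable, i2] at h3
    exact h3.not_gt aleph0_lt_aleph_one
  choose g hg using h2
  have h3 : ∀ n, ∃ b, ∀ᶠ q in 𝒰, (j (g q)).down n = b := fun n => by
    rcases 𝒰.em fun q => (j (g q)).down n = true with h | h
    exacts [⟨true, h⟩, ⟨false, h.mono fun q hq => by simpa using hq⟩]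
  choose b hb using h3
  have h4 := eventually_countable_forall.2 hb
  obtain ⟨q0, h5⟩ := h4.exists
  obtain ⟨q, h6, h7⟩ := (h4.and (i1 (g q0).2)).exists
  exact hg q (j.injective (ULift.ext _ _ (funext fun n => (h5 n).trans (h6 n).symm)) ▸ h7)

theorem fr {κ : Type*} (𝒰 : Ultrafilter κ) [CountableInterFilter (𝒰 : Filter κ)]
    (hn : ∀ a, {a} ∉ 𝒰) : Fr κ := by
  classical
  intro h hc
  obtain ⟨g, g0, g1⟩ : ∃ g : ℕ → Finset κ → Set κ, g 0 = h ∧
      ∀ k s, g (k + 1) s = {p | ∀ᶠ q in 𝒰, p ∈ g k (insert q s)} :=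
    ⟨fun k => Nat.rec h (fun _ g s => {p | ∀ᶠ q in 𝒰, p ∈ g (insert q s)}) k, rfl, fun _ _ => rfl⟩
  have g2 : ∀ k s, (g k s).Countable := fun k => by
    induction k with
    | zero => rwa [g0]
    | succ k ih => exact fun s => g1 k s ▸ big 𝒰 _ fun q => ih _
  have h1 : ∀ S : Set κ, S.Countable → ∀ᶠ q in 𝒰, q ∉ S := fun S hS =>
    ((eventually_countable_ball hS).2 fun a _ => (Ultrafilter.compl_mem_iff_notMem.2 (hn a) :
      ∀ᶠ q in 𝒰, q ∉ ({a} : Set κ))).mono fun q hq h => hq q h rfl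
  obtain ⟨P, hP⟩ : ∃ P : Finset κ → Prop, ∀ A, P A ↔ ∀ p ∈ A, ∀ s ⊆ A.erase p, ∀ k, p ∉ g k s :=
    ⟨_, fun _ => Iff.rfl⟩
  have h2 : ∀ A : {A // P A}, ∃ B : {A // P A}, A.1 ⊂ B.1 := by
    rintro ⟨A, hA⟩
    have e1 : ∀ᶠ q in 𝒰, ∀ s ∈ A.powerset, ∀ k, q ∉ g k s :=
      (eventually_all_finset _).2 fun s _ => eventually_countable_forall.2 fun k => h1 _ (g2 k s)
    have e2 : ∀ᶠ q in 𝒰, ∀ p ∈ A, ∀ s ∈ (A.erase p).powerset, ∀ k, p ∉ g k (insert q s) :=
      (eventually_all_finset _).2 fun p hp => (eventually_all_finset _).2 fun s hs =>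
        eventually_countable_forall.2 fun k => Ultrafilter.eventually_not.2 fun h =>
          (hP A).1 hA p hp s (Finset.mem_powerset.1 hs) (k + 1) (g1 k s ▸ h)
    obtain ⟨q, q1, q2, q3⟩ := ((h1 _ A.countable_toSet).and (e1.and e2)).exists
    refine ⟨⟨insert q A, (hP _).2 fun p hp s hs k => ?_⟩, Finset.ssubset_insert q1⟩
    rcases Finset.mem_insert.1 hp with rfl | hp
    · exact q2 s (Finset.mem_powerset.2 (hs.trans (Finset.erase_insert_subset _ _))) k
    have h3 : s.erase q ⊆ A.erase p := fun a ha => by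
      have := hs (Finset.mem_of_mem_erase ha)
      simp only [Finset.mem_erase, Finset.mem_insert] at this ha ⊢
      exact ⟨this.1, this.2.resolve_left ha.1⟩
    by_cases h4 : q ∈ s
    · exact Finset.insert_erase h4 ▸ q3 p hp _ (Finset.mem_powerset.2 h3) k
    · exact (hP A).1 hA p hp s (Finset.erase_eq_of_notMem h4 ▸ h3) k
  choose F hF using h2
  obtain ⟨A, hA⟩ : ∃ A : ℕ → {A // P A}, StrictMono fun n => (A n).1 :=
    ⟨fun n => F^[n] ⟨∅, (hP _).2 (by simp)⟩, strictMono_nat_of_lt_succ fun n => by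
      simp only [Function.iterate_succ_apply']; exact hF _⟩
  refine ⟨⋃ n, (A n).1, fun h3 => (h3.finite_subsets.preimage
    (Finset.coe_injective.comp hA.injective).injOn).not_infinite ?_, fun p hp s hs => ?_⟩
  · exact infinite_univ.mono fun n _ => subset_iUnion (fun n => ((A n).1 : Set κ)) n
  · obtain ⟨n, hn⟩ := (show Directed (· ⊆ ·) fun n => ((A n).1 : Set κ) from
      Monotone.directed_le fun a b h => Finset.coe_subset.2 (hA.monotone h)
        ).exists_mem_subset_of_finset_subset_biUnion (s := insert p s) (by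
      rw [Finset.coe_insert]; exact insert_subset hp (hs.trans sdiff_subset))
    exact g0 ▸ (hP _).1 (A n).2 p (hn (by simp)) s (fun a ha => Finset.mem_erase.2
      ⟨(hs ha).2, hn (by simp [ha])⟩) 0

end Pool.Agent.H.MP_e848aa_gt
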