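import Mathlib

set_option autoImplicit false

namespace Pool.Agent.H.MP_e848aa_gt

open Set

def MetaL (X : Type*) [TopologicalSpace X] : Prop :=
  ∀ 𝒰 : Set (Set X), (∀ U ∈ 𝒰, IsOpen U) → ⋃₀ 𝒰 = univ →
    ∃ 𝒱 : Set (Set X), (∀ V ∈ 𝒱, IsOpen V ∧ ∃ U ∈ 𝒰, V ⊆ U) ∧ ⋃₀ 𝒱 = univ ∧
      ∀ x, {V | V ∈ 𝒱 ∧ x ∈ V}.Countable

def Perf {X Y : Type*} [TopologicalSpace X] [TopologicalSpace Y] (f : X → Y) : Prop :=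
  Continuous f ∧ Function.Surjective f ∧ IsClosedMap f ∧ ∀ y, IsCompact (f ⁻¹' {y})

def Fr (κ : Type*) : Prop :=
  ∀ h : Finset κ → Set κ, (∀ s, (h s).Countable) →
    ∃ c : Set κ, c.Infinite ∧ ∀ p ∈ c, ∀ s : Finset κ, ↑s ⊆ c \ {p} → p ∉ h s

end Pool.Agent.H.MP_e848aa_gt
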